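import Pool.Agent.Run7.h822.BA.Spec
import Pool.Agent.Results.MP_b30479_gt.BraidAxisOdd

/-!
# The complexified volume conjecture at odd roots of unity for all the links `L_{A,n}`

The link `L_{A,n}` consists of the closure of the 3-braid `(s_1^A s_2^{-A})^n` and of the braid axis.
The definitions (coloured Jones polynomials from the R-matrix of `U_q(sl_2)`, layered ideal
triangulations of the complements, their angle structures and volumes, the filter `oddTop`) are those
of the file `BraidAxisOdd`, which has the theorem for `A = 1`, `A = 2` and `A ≥ 4`, with the volumes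
for `A = 1` and `A = 2` written down.  Here the exponent `A ≥ 1` is arbitrary, and for every `A` the
volume is the greatest volume of an angle structure, which is multiplicative in `n`.
-/

set_option autoImplicit false

namespace Pool.Agent.Results.MP_b30479_gt.BraidAxisAllOdd

open Finset Filter Topology
open Pool.Agent.Results.MP_b30479_gt.BraidAxisOdd

/-- `V(A)`: the greatest volume of an angle structure on the layered triangulation of the complement
of `L_{A,1}`, that is the hyperbolic volume of this link, for every `A ≥ 1`. -/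
noncomputable def Vol (A : ℕ) : ℝ := sSup {W : ℝ | ∃ w : ℤ → ℝ, IsAngle A 1 w ∧ vol A 1 w = W}

lemma vol_eq (A : ℕ) : Vol A = Run7.h822.BA.VA A := rfl

/-- **The complexified volume conjecture at odd roots of unity for all the links `L_{A,n}`.**
Let `A ≥ 1` and `n ≥ 1`, let `L_{A,n}` be the link which consists of the closure of
`(s_1^A s_2^{-A})^n` and of its axis, and let `a_N` be its Kashaev invariant (the value of the
`N`-coloured Jones polynomial at `q = e^(2 π i / N)`, where it is continuous).
(1) The greatest volume of an angle structure on the layered triangulation of the complement is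
`n V(A) > 0`.
As `N → ∞` through the odd integers:
(2) `a_N ≠ 0` for large `N`;
(3) the phase of `a_{N+2} / a_N` tends to `0`, that is, the imaginary part of
`π log (a_{N+2} / a_N)` converges to `0`;
(4) `(2 π / N) log |a_N|` tends to `n V(A)`;
(5) if `a_{N+2} / a_N` converges then its limit is `exp (n V(A) / π)`, that is,
`π log (a_{N+2} / a_N)` converges to `n V(A) + 0 i`. -/
theorem result (A n : ℕ) (hA : 1 ≤ A) (hn : 1 ≤ n) :
    (∀ N : ℕ, 1 ≤ N → ContinuousAt (cjones N 3 (linkWord (pal (power A) n))) (root N)) ∧
    0 < n * Vol A ∧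
    IsGreatest {W : ℝ | ∃ w : ℤ → ℝ, IsAngle A n w ∧ vol A n w = W} (n * Vol A) ∧
    (∀ᶠ N in oddTop, kashaev (pal (power A) n) N ≠ 0) ∧
    Tendsto (fun N => kashaev (pal (power A) n) (N + 2) / kashaev (pal (power A) n) N /
      (‖kashaev (pal (power A) n) (N + 2) / kashaev (pal (power A) n) N‖ : ℝ))
        oddTop (𝓝 1) ∧
    Tendsto (fun N : ℕ => 2 * Real.pi * (Real.log ‖kashaev (pal (power A) n) N‖ / N)) oddTop
      (𝓝 (n * Vol A)) ∧
    (∀ c : ℂ, Tendsto (fun N => kashaev (pal (power A) n) (N + 2) / kashaev (pal (power A) n) N)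
      oddTop (𝓝 c) → c = Complex.exp ((n * Vol A : ℝ) / Real.pi)) := by
  obtain ⟨h0, h1, h2, h3⟩ := Run7.h822.BA.spec hA hn
  have hev : oddTop ≤ atTop := inf_le_left
  have hu : IsWord (power A) := Pool.Agent.R807.Phase.hu_uA A
  have h2 : ∀ᶠ N : ℕ in atTop, 0 < Pool.Agent.R807.Phase.tN (power A) n N := h2
  have h3 : Tendsto (fun N : ℕ => 2 * Real.pi / N *
      Real.log (Pool.Agent.R807.Phase.tN (power A) n N)) atTop (𝓝 (n * Vol A)) := h3
  have hJ : ∀ᶠ N in atTop, kashaev (pal (power A) n) N =
      -Complex.exp (3 * (Real.pi : ℂ) * Complex.I / N) *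
        ((Pool.Agent.R807.Phase.tN (power A) n N : ℝ) : ℂ) := by
    filter_upwards [eventually_gt_atTop 0] with N hN
    exact kashaev_phase hN hu n
  refine ⟨fun N hN => cont hN _, h1, h0, ?_, ?_, ?_, ?_⟩
  · refine Eventually.filter_mono hev ?_
    filter_upwards [hJ, h2] with N g1 g2
    exact kashaev_ne g1 g2
  · exact Pool.Agent.R807.Ratio.phase_ratio 2 odd_shift (hJ.filter_mono hev)
      (h2.filter_mono hev) (Eventually.of_forall Pool.Agent.R807.Ratio.exp_norm)
      (Pool.Agent.R807.Ratio.exp_tendsto.mono_left hev) (by norm_num)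
  · refine Tendsto.mono_left ?_ hev
    refine h3.congr' ?_
    filter_upwards [hJ, h2] with N g1 g2
    rw [g1, norm_mul, Pool.Agent.R807.Ratio.exp_norm, one_mul, Complex.norm_real,
      Real.norm_eq_abs, abs_of_pos g2]
    ring
  · intro c hc
    obtain ⟨c1, c2⟩ := Pool.Agent.R807.Ratio.ratio_real 2 odd_shift (hJ.filter_mono hev)
      (h2.filter_mono hev) (Pool.Agent.R807.Ratio.exp_tendsto.mono_left hev) (by norm_num) hc
    have c3 := Pool.Agent.R807.Ratio.ratio_lim
      (b := fun k => Pool.Agent.R807.Phase.tN (power A) n (2 * k + 1)) (c := c.re)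
      (odd_sub.eventually (h2.filter_mono hev)) (Pool.Agent.R807.Ratio.odd_growth h3)
      (by
        refine (c2.comp odd_sub).congr fun k => ?_
        rfl)
    rw [← c1, c3, Complex.ofReal_exp]
    push_cast
    rfl

end Pool.Agent.Results.MP_b30479_gt.BraidAxisAllOdd
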