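import Pool.Agent.Run7.h822.MT.Traces

/-!
# A motivic t-structure for one prime implies independence of all traces

Let `C` and `R l` be as in `OneRealisationSuffices`: a rigid tensor triangulated category generated
by objects with hard Lefschetz for `R l₀` and Betti numbers independent of `l` (for constructible
motives over a field: the motives of smooth projective varieties). Suppose that there is a
t-structure which is motivic for the single realisation `R l₀`. Then for each endomorphism `f` of
each object `X` of `C` (a mixed motive, not assumed pure or in the heart) and each degree `i`: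
the trace of `f` on the cohomology of `X` in degree `i` is given, for all `l`, by one and the same
endomorphism of the unit (a rational number for motives), and the dimension of the cohomology of
`X` in degree `i` is the same for all `l`.
-/

set_option autoImplicit false

open CategoryTheory Limits MonoidalCategory Pretriangulated Triangulated

universe v u w

namespace Pool.Agent.Results.MP_6d0ce9_ag.IndependenceOfTraces

open Pool.Agent.Y116.MT Pool.Agent.V1178.MT Run7.h822.MT

/-- If there is a t-structure which is motivic for `R l₀`, then for all objects `X`, endomorphisms
`f` of `X` and degrees `i` there is an endomorphism `τ` of the unit which gives the trace of `f` in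
degree `i` in all realisations, and the Betti numbers of `X` are the same for all realisations. -/
theorem result {C : Type u} [Category.{v} C] [Preadditive C] [HasZeroObject C] [HasShift C ℤ]
    [∀ n : ℤ, (shiftFunctor C n).Additive] [Pretriangulated C] [IsTriangulated C]
    [MonoidalCategory C] [SymmetricCategory C] [TensorTriangulated C] [MonoidalPreadditive C]
    [RightRigidCategory C] (hid : ∀ e : 𝟙_ C ⟶ 𝟙_ C, e ≫ e = e → e = 0 ∨ e = 𝟙 _)
    {Λ : Type*} {E : Λ → Type w} [∀ l, Field (E l)] [∀ l, CharZero (E l)]
    (R : ∀ l, Realisation C (E l)) (l₀ : Λ) (Q : ObjectProperty C) (T : C)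
    (hQ : PureGenerators Q T R l₀) (t : TStructure C) (ht : IsMotivic t (fun _ : Unit => R l₀))
    (X : C) (i : ℤ) :
    (∀ f : X ⟶ X, ∃ τ : 𝟙_ C ⟶ 𝟙_ C, ∀ l, traceH (R l) f i = scalar (R l) τ) ∧
    ∀ l, bet (R l) X i = bet (R l₀) X i :=
  ⟨fun f => traces hid R l₀ Q T hQ t ht f i, fun l => betti_indep hid R l₀ Q T hQ t
    ((motivic_iff_one hid R l₀ Q T hQ t).1 ht) X l i⟩

end Pool.Agent.Results.MP_6d0ce9_ag.IndependenceOfTraces
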