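import Pool.Agent.Run7.h822.MT.Traces

/-!
# The other realisations of the heart of a motivic t-structure

Let `t` be a t-structure which is motivic for one realisation `R`, and let `R'` be any other
realisation with coefficients of characteristic zero. Nothing is assumed to relate `R` and `R'`;
in particular no hard Lefschetz theorem and no comparison of Betti numbers. Then

* the cohomology `R'` of an object of the heart of `t` vanishes in odd degrees, and it is not zero
  in all degrees unless the object is zero; hence in each even degree it is an exact functor on the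
  heart, and the sum of these functors is faithful;
* the total Betti number of each object of the category (in the heart or not) for `R'` is at most
  its total Betti number for `R`.

So a prime for which a motivic t-structure exists has the largest total Betti numbers.
-/

set_option autoImplicit false

open CategoryTheory Limits MonoidalCategory Pretriangulated Triangulated

universe v u w w'

namespace Pool.Agent.Results.MP_6d0ce9_ag.OtherRealisations

open Pool.Agent.Y116.MT Pool.Agent.V1178.MT Run7.h822.MT

/-- Let `t` be motivic for `R` and let `R'` be any realisation. (1) For `X` in the heart of `t` the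
cohomology `R'` vanishes in odd degrees. (2) It vanishes in all degrees only if `X` is zero. (3) For
a distinguished triangle `A ⟶ X ⟶ B ⟶` in the heart, the sequence of the cohomology `R'` in each
degree is short exact. (4) The total Betti number of any object for `R'` is at most the one
for `R`. -/
theorem result {C : Type u} [Category.{v} C] [Preadditive C] [HasZeroObject C] [HasShift C ℤ]
    [∀ n : ℤ, (shiftFunctor C n).Additive] [Pretriangulated C] [IsTriangulated C]
    [MonoidalCategory C] [SymmetricCategory C] [TensorTriangulated C] [MonoidalPreadditive C]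
    [RightRigidCategory C] (hid : ∀ e : 𝟙_ C ⟶ 𝟙_ C, e ≫ e = e → e = 0 ∨ e = 𝟙 _)
    {E : Type w} [Field E] [CharZero E] {E' : Type w'} [Field E'] [CharZero E']
    (R : Realisation C E) (R' : Realisation C E') (t : TStructure C)
    (h : IsMotivic t (fun _ : Unit => R)) :
    (∀ (X : C) (i : ℤ), Hrt t X → Odd i → IsZero (R'.H.obj (X⟦i⟧))) ∧
    (∀ X : C, Hrt t X → (∀ i : ℤ, IsZero (R'.H.obj (X⟦i⟧))) → IsZero X) ∧
    (∀ (X A B : C) (f : A ⟶ X) (g : X ⟶ B) (d : B ⟶ A⟦(1 : ℤ)⟧), Triangle.mk f g d ∈ distTriang C →
      Hrt t A → Hrt t X → Hrt t B → ∀ i : ℤ, Mono (R'.H.map (f⟦i⟧')) ∧ Epi (R'.H.map (g⟦i⟧')) ∧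
        ∀ y, (R'.H.map (g⟦i⟧')).hom y = 0 → ∃ x, (R'.H.map (f⟦i⟧')).hom x = y) ∧
    ∀ X : C, ∑ᶠ i : ℤ, bet R' X i ≤ ∑ᶠ i : ℤ, bet R X i := by
  have ht : TensorCompat t := ⟨h.tensor_le, h.tensor_ge⟩
  have hu : Hrt t (𝟙_ C) := unit_hrt ht h.nondeg_le h.nondeg_ge
  have hR : CE t R := ⟨(truncations_of_motivic hid h).1, ⟨h.exact_le (), h.exact_ge ()⟩⟩
  have hodd : ∀ (X : C) (i : ℤ), Hrt t X → Odd i → IsZero (R'.H.obj (X⟦i⟧)) :=
    fun X i hX hi => isZero_odd R' ht hR.ex hu hid hX i hi
  refine ⟨hodd, ?_, ?_, ?_⟩
  · intro X hX h0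
    exact heart_faithful_other R' hid hR ht hu hX fun i => (bet_eq_zero_iff R' X i).2 (h0 i)
  · intro X A B f g d hT hA hX hB i
    refine ⟨?_, ?_, hexact R' hT i⟩
    · rcases Int.even_or_odd i with hi | hi
      · exact hmono1 R'.H hT i (hodd B (i - 1) hB (hi.sub_odd odd_one))
      · exact ⟨fun a b _ => (hodd A i hA hi).eq_of_tgt a b⟩
    · rcases Int.even_or_odd i with hi | hi
      · exact hepi2 R'.H hT i (hodd A (i + 1) hA hi.add_one)
      · exact ⟨fun a b _ => (hodd B i hB hi).eq_of_src a b⟩
  · exact fun X => tot_max R' hid hR ht hu X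

end Pool.Agent.Results.MP_6d0ce9_ag.OtherRealisations
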